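import Mathlib
import Pool.Agent.U191.GSHalf
import Pool.Agent.TH170.GS.TB

/-!
# Finite generation of étale motivic cohomology in weight `d` for the varieties generated by the
abelian varieties with one half of all slope types of every CM field of degree `2 r ^ k`

Over an algebraic closure of the field with `p` elements each abelian variety is isogenous to the
reduction of an abelian variety of CM type (Honda, Tate). So an abelian variety over the field
with `p ^ a` elements is modelled by `RedAV`: a finite product of CM types `(E i, Φ i)` with Weil
numbers `π i ∈ E i` that satisfy the formula of Shimura and Taniyama; its cohomology of degree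
`n`, with coefficients in an algebraically closed field `Ω`, consists of the alternating `n`-forms
on `Ω ⊗ H_1`, on which the Frobenius endomorphism acts by `π`. We fix an isomorphism `ν` of the
algebraic closure of `ℚ_p` with `ℂ`; it defines a `p`-adic valuation of `ℂ`, with the value one at
`p`.

Let `K i` (`i` in a finite set) be CM fields of degree `2 g i` which are pairwise independent: for
`i ≠ k` and all complex embeddings `φ` of `K i` and `ψ` of `K k` some automorphism of `ℂ` is the
identity on `φ (K i)` and the complex conjugation on `ψ (K k)` (this is no condition if there is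
only one field). Let `M i` be a function with integral values on the complex embeddings of `K i`,
invariant under complex conjugation (the weights). A CM type `Φ i` of `K i` (a choice of one
element out of each complex conjugate pair of embeddings; there are `2 ^ g i` types), `M i` and a
real number `κ i ≠ 0` prescribe the slopes `(a + κ M) / 2` (at the embeddings in `Φ i`) and `(a -
κ M) / 2` (outside of `Φ i`) of a Weil number for `p ^ a` in `K i`. If `p` splits completely in `K
i` then, by Honda and Tate, all rational slopes between `0` and `a` that are symmetric in this way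
occur for abelian varieties over finite fields. The case `M = 1`, `κ = a` is the ordinary case.

For a family of types `Φ i` let `𝒞` (`OfTypes`) be the class of the abelian varieties `Y` each of
whose factors is supersingular or has a Frobenius endomorphism some power of which is, for some `i`,
a Weil number in `K i` with the slopes prescribed by `Φ i`, `M i` and some real number `κ i ≠ 0`
(which depends only on `Y` and `i`). The class `𝒞` contains all products of powers of its members,
and the products of its members with supersingular abelian varieties.

`Homology Ω V` are data of motivic homology `M X i j = H_i^M(X, ℚ(j)) = CH_j(X, i - 2 j) ⊗ ℚ` and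
of `ℓ`-adic homology `E X i j = H_i(X, ℚ_ℓ(j))` (coefficients extended to `Ω`) of schemes `X` of
finite type over a finite field (the elements of `V`), with the Frobenius and the regulator. For a
family of types let `𝒢` be the smallest class (`Generated`) of such schemes that contains those
with the homology groups of abelian varieties in `𝒞` (`IsAbelianOfTypes`), that is closed under
direct summands of finite sums of twists of motives, and that contains all of a closed subscheme
`Z` of `X`, `X` and `X ∖ Z` if it contains two of them. It contains for instance all products of
varieties in `𝒞`, all products of curves with Jacobians in `𝒞`, and the blow-ups of members of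
`𝒢` in members of `𝒢`.

**The property of the slope types.** `Q` (`Holds`) is the following: for all smooth projective
connected schemes `X` in `𝒢`, `d = dim X`, **the groups `H^m(X_et, ℤ(d))` are finitely generated for
all integers `m ≤ 2 d`**, and **finite for `m < 2 d`**. So the question Q1 has a positive answer
for `X`, with the negative degrees.

`IsTopWeight` are the known properties which are used, for smooth projective `X`: the coefficient
sequence `H^m(X_et, ℤ(d)) → H^m(X, ℚ(d)) → H^m(X_et, ℚ/ℤ(d))` with `H^m(X, ℚ(d)) =
CH_0(X, 2 d - m) ⊗ ℚ`; the finiteness of `H^m(X_et, ℚ/ℤ(d))` for `m < 2 d`; the finite generation of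
`H^(2 d)(X_et, ℤ(d))` (unramified class field theory); and the weights of Deligne: no nonzero element
of `H_i(X, ℚ_ℓ(0))`, `i ≠ 0`, is invariant under the Frobenius.

Properties of the theory of cycles that are used for the abelian varieties (`IsChow`,
`IsMotivic`): Poincaré duality, the formal properties of correspondences, the nilpotence of
homologically trivial correspondences (Kimura), the operation of the Frobenius endomorphism on
higher Chow groups, the vanishing of the higher rational `K`-groups of a finite field (Quillen),
and the algebraicity of the classes in `Alg` (of which only products of classes of divisors matter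
here, theorem of Tate). The passage from the Tate conjecture to all degrees and to the class
`Generated` is due to Soulé, Geisser, Kahn and Jannsen.

**The theorem.** Let `K` be **any CM field of degree `2 g = 2 r ^ k`**, `r` a prime number, of
degree at least `16` if `r = 2`. Nothing is assumed about the Galois group of the normal closure of
`K`, and nothing about the subfields of `K`.

* (`HalfOfAll`) For all weights `M` (odd if `r = 2`; if `r` is odd then `r` may divide some, but not
  all of them) the property `Q` is true for **at least one half of all `2 ^ g` types** of `K`.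
* (`MostWithWeightsOne`) For the weights `M = 1` (for instance in the ordinary case) it is true for
  at least `(1 - 1 / r) 2 ^ g` of the types.
* (`OneOfTwo`) There is a set `B` of embeddings of `K`, stable under complex conjugation, such that
  for **every** type `Φ` it is true for `Φ` or for the symmetric difference of `Φ` and `B`.
* (`SixteenPercent`) There is a number `g₀` such that for every CM field that is **abelian over
  `ℚ`**, of any degree `2 g ≥ 2 g₀`, and all odd weights it is true for at least 16 percent of all
  `2 ^ g` types; again nothing is assumed on the subfields.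

All this is proved more generally for finitely many pairwise independent fields `K i`; the
proportions are then multiplied.

The proof joins two parts of the library of the starting files: the theorem that one half of all types
have no relations (`Pool.Agent.Q29.EP`, written for the conjecture of Parshin, MP_de59b4_ag), and the
consequences of elementary relations between the Frobenius eigenvalues (`Pool.Agent.TH170.GS`), as
in MP_cb388a_ag.HalfOfAllTypes of this run (helper191).
-/

set_option autoImplicit false

namespace Pool.Agent.Results.MP_b197b4_nt.HalfOfAllTypes

open NumberField Module Pool.Agent.H204R3.CM Pool.Agent.H977R3.CM Pool.Agent.TH170 Pool.Agent.Q29.EP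

open Pool.Agent.W495.TA Pool.Agent.W495.FM


/-- The groups `H X m = H^m(X_et, ℤ(d))` and `A X m = H^m(X_et, ℚ/ℤ(d))`, `d = dim X`, for the smooth
projective connected schemes `X` (those with the property `S X`), and their known properties. -/
structure IsTopWeight {Ω V : Type} [Field Ω] (T : Homology Ω V) (S : V → Prop) (dim : V → ℕ)
    (H A : V → ℤ → Type) [∀ X m, AddCommGroup (H X m)] [∀ X m, AddCommGroup (A X m)] : Prop where
  /-- no nonzero element of `H_i(X, ℚ_ℓ(0))`, `i ≠ 0`, is invariant under the Frobenius (Deligne) -/
  weight : ∀ X, S X → ∀ i : ℤ, i ≠ 0 → ∀ e : T.E X i 0, T.frob X i 0 e = e → e = 0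
  /-- the sequence of the coefficients `ℤ(d) → ℚ(d) → ℚ/ℤ(d)`; `H^m(X, ℚ(d)) = CH_0(X, 2 d - m) ⊗ ℚ` -/
  coefficients : ∀ X, S X → ∃ (a : ∀ m : ℤ, H X m →+ T.M X (2 * dim X - m) 0)
    (b : ∀ m : ℤ, T.M X (2 * dim X - m) 0 →+ A X m) (c : ∀ m : ℤ, A X m →+ H X (m + 1)),
      (∀ m, Function.Exact (a m) (b m)) ∧ (∀ m, Function.Exact (b m) (c m)) ∧
        ∀ m, Function.Exact (c m) (a (m + 1))
  /-- `H^m(X_et, ℚ/ℤ(d))` is finite for `m < 2 d` (Deligne, Gabber, Milne) -/
  finite : ∀ X, S X → ∀ m : ℤ, m < 2 * dim X → Finite (A X m)
  /-- `H^(2 d)(X_et, ℤ(d))` is finitely generated (unramified class field theory) -/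
  classField : ∀ X, S X → AddGroup.FG (H X (2 * dim X))

/-- The vanishing of the rational higher groups of zero-cycles. -/
theorem vanish {Ω V : Type} [Field Ω] {T : Homology Ω V} (hT : IsHomology T) {S : V → Prop}
    {dim : V → ℕ} {H A : V → ℤ → Type} [∀ X m, AddCommGroup (H X m)] [∀ X m, AddCommGroup (A X m)]
    (h : IsTopWeight T S dim H A) {X : V} (hS : S X) (hX : TB T X) {i : ℤ} (hi : i ≠ 0) :
    Subsingleton (T.M X i 0) := by
  have h0 : ∀ x : T.M X i 0, x = 0 := by
    intro x
    by_contra hx
    have h1 : LinearIndependent ℚ (fun _ : Fin 1 => x) := by
      rw [linearIndependent_unique_iff]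
      exact hx
    have h2 := (hX i 0).2.1 1 (fun _ => x) h1
    rw [linearIndependent_unique_iff] at h2
    exact h2 (h.weight X hS i hi _ (hT.frob_reg X i 0 x))
  exact ⟨fun x y => by rw [h0 x, h0 y]⟩

/-- Finite generation. -/
theorem finitelyGenerated {Ω V : Type} [Field Ω] {T : Homology Ω V} (hT : IsHomology T)
    {S : V → Prop} {dim : V → ℕ} {H A : V → ℤ → Type} [∀ X m, AddCommGroup (H X m)]
    [∀ X m, AddCommGroup (A X m)] (h : IsTopWeight T S dim H A) {X : V} (hS : S X) (hX : TB T X) :
    (∀ m : ℤ, m ≤ 2 * dim X → AddGroup.FG (H X m)) ∧ ∀ m : ℤ, m < 2 * dim X → Finite (H X m) := by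
  have hf : ∀ m : ℤ, m < 2 * dim X → Finite (H X m) := by
    intro m hm
    obtain ⟨a, b, c, h1, h2, h3⟩ := h.coefficients X hS
    obtain ⟨n, rfl⟩ : ∃ n, m = n + 1 := ⟨m - 1, by ring⟩
    have hA : Finite (A X n) := h.finite X hS n (by omega)
    have hs : Subsingleton (T.M X (2 * dim X - (n + 1)) 0) := vanish hT h hS hX (by omega)
    have hsurj : Function.Surjective (c n) := fun x => (h3 n x).1 (Subsingleton.elim _ _)
    exact Finite.of_surjective _ hsurj
  refine ⟨fun m hm => ?_, hf⟩
  rcases hm.lt_or_eq with h1 | rfl
  · have := hf m h1
    exact Module.Finite.iff_addGroup_fg.1 Module.Finite.of_finite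
  · exact h.classField X hS

/-- For all smooth projective connected schemes `X` generated by abelian varieties with the slope types
`Φ`, `d = dim X`, the groups `H^m(X_et, ℤ(d))` are finitely generated for `m ≤ 2 d`, and finite for
`m < 2 d`. -/
def Holds {p : ℕ} [Fact p.Prime] (ν : PadicAlgCl p ≃+* ℂ) {I : Type} (K : I → Type)
    [∀ i, Field (K i)] (M : ∀ i, (K i →+* ℂ) → ℤ) (Φ : ∀ i, Set (K i →+* ℂ)) : Prop :=
  ∀ (Ω : Type) [Field Ω] [IsAlgClosed Ω] [CharZero Ω] (V : Type) (T : Homology Ω V),
    IsHomology T → ∀ (S : V → Prop) (dim : V → ℕ) (H A : V → ℤ → Type)
      [∀ X m, AddCommGroup (H X m)] [∀ X m, AddCommGroup (A X m)], IsTopWeight T S dim H A →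
        ∀ X : V, S X → Generated T (GS.IsAbelianOfTypes ν K M Φ T) X →
          (∀ m : ℤ, m ≤ 2 * dim X → AddGroup.FG (H X m)) ∧
            ∀ m : ℤ, m < 2 * dim X → Finite (H X m)

/-- The property of the slope types `Φ i` with the weights `M i`. -/
def Q : TypeProperty := fun _ _ ν _ _ K _ _ _ M Φ => Holds ν K M Φ

/-- **The groups `H^m(X_et, ℤ(d))`, `m ≤ 2 d`, are finitely generated for all smooth projective
varieties generated by the abelian varieties over finite fields with one half of all slope types of
every CM field of degree `2 r ^ k`.** -/
theorem result : HalfOfAll Q ∧ MostWithWeightsOne Q ∧ OneOfTwo Q ∧ SixteenPercent Q := by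
  have h : WithoutRelations Q := Pool.Agent.U191.GSHalf.withoutRelations
    fun _ _ _ _ _ _ _ _ _ _ _ h _ _ _ _ _ _ hT _ _ _ _ _ _ hW X hS hX =>
      finitelyGenerated hT hW hS (GS.tb_types h hT hX)
  exact ⟨halfOfAll h, mostWithWeightsOne h, oneOfTwo h, sixteenPercent h⟩

end Pool.Agent.Results.MP_b197b4_nt.HalfOfAllTypes
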