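import Pool.Agent.U926.SF.TopDefs
import Pool.Agent.U926.SF.Cur2

/-!
# Finite generation of `H^i(X_et, ℤ(d))` for hypersurfaces `g_0 + ⋯ + g_r = 0` over finite fields

Let `F` be a finite field, and let `g_0, …, g_r` be nonsingular forms of one degree, prime to the
characteristic, in separate sets of variables over the algebraic closure of `F`, each in at most two
variables, or (cubic forms) in at most four variables. Let `X` be the hypersurface
`g_0(x^(0)) + g_1(x^(1)) + ⋯ + g_r(x^(r)) = 0`. There is no restriction on the number of the forms, so
the dimension `d` of `X` is arbitrary.

**Theorem.** Let `X₀` be a variety over a finite extension of `F` which becomes isomorphic to `X` over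
the algebraic closure. Then the groups `H^i(X₀_et, ℤ(d))` are finitely generated for all `i ≤ 2 d`; so Q1
holds for `X₀`. The same is true for all products of such hypersurfaces (of any degrees) with curves,
abelian varieties and all other varieties which are built from products of curves, and for every
variety which is built from such products: for example for the coverings `w ^ m = F(x)` of the
projective space, `F = g_0 + ⋯ + g_r` and `m` a divisor of its degree, for quotients and images under
generically finite morphisms, for the blow-ups of such products in such products, and for projective
bundles over them.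

New is that the hypersurfaces have Chow motives of abelian type. (`r = 0`: curves, cubic surfaces and
threefolds; the Fermat hypersurfaces are known, too.)

The known theorems which are used:

* the formal properties of the Chow groups (`IsChowProj`);
* `hT`, the theorem of Katsura and Shioda: `f(x) + g(y) = 0` is dominated by the product of
  `f(x) + z ^ d = 0` and `g(y) + w ^ d = 0`, blown up in the product of `f(x) = 0` and `g(y) = 0`;
* `hK`: the motives of cubic surfaces and cubic threefolds are direct summands of sums of Tate twists of
  motives of curves;
* `hA`: the theorem of Soulé, Geisser, Kahn, Flach and Morin on motives of abelian type.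
-/

universe u v

namespace Pool.Agent.Results.MP_b197b4_nt.SumsOfForms

open Pool.Agent.H914 Pool.Agent.W492.BB Pool.Agent.TH133 Pool.Agent.U926.SF

/-- **Finite generation of `H^i(X₀_et, ℤ(d))`, `i ≤ 2 d`, `d = dim X`**, for the hypersurfaces
`g_0 + ⋯ + g_r = 0` with equations in separate sets of variables over finite fields, for their products
with varieties built from products of curves, and for all varieties which are built from these
products. -/
theorem result {F : Type u} [Field F] [Finite F] {𝒱 : VarClass (AlgebraicClosure F)}
    {C : TheoryData.{u, v, 0} 𝒱 ℚ} [IsChowProj C] (T : Hypersurfaces 𝒱)
    (hT : ∀ d : ℕ, 2 ≤ d → (d : AlgebraicClosure F) ≠ 0 → IsKatsuraShioda C T d)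
    (hK : CubicsHaveCurveMotives C T) (W : ModelGroups F 𝒱 ℤ)
    (hA : TopWeightTheorem C W) (X : 𝒱.Obj) (hX : IsBuiltFrom C (IsSumOfCurveType C T) X) :
    TopWeight W X :=
  hA X (hX.trans fun _ hY => hY.isBuiltFrom hT hK)

end Pool.Agent.Results.MP_b197b4_nt.SumsOfForms
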