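import Pool.Agent.U998.ZC.Main

/-!
# Finite generation of étale motivic cohomology in the weight `d` in characteristic `p`: each range of degrees

For a proper regular connected scheme `X` over the field with `p` elements, of dimension `d`, let
`H^m = H^m(X_et, ℤ(d))`.  The question (Q1) is whether `H^m` is finitely generated for all `m ≤ 2d`; it contains the
Beilinson-Soulé vanishing `H^m(X, ℚ(d)) = 0` for `m < 0`.  For a separated scheme `Y` of finite type over `F_p` and an
integer `J` let `Upto J` be the assertion that the comparison maps `CH_0(Y, j) ⊗ ℚ → H_j(CH_0(W(Y)) ⊗ ℚ)` of the higher Chow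
groups of zero-cycles with the weight homology (`W(Y)` is the weight complex of Gillet and Soulé) are isomorphisms for
`j < J` and surjective for `j = J`.  The theorem:

* for all `J ≥ 1` and `n`: the groups `H^m` are finitely generated for all `X` of dimension at most `n` and
  `2d - J < m ≤ 2d` if and only if `CH_0(X, j) ⊗ ℚ = 0` for these `X` and `1 ≤ j < J`, and if and only if `Upto J` is true
  for all separated schemes of finite type of dimension at most `n`; so Q1 for the `X` of dimension at most `n` is
  equivalent to isomorphisms for all comparison maps of the separated schemes of dimension at most `n`;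
* for all `J ≥ 1`: if `H^m` is finitely generated for all `X` and all `m > 2d - (J + 2)`, `m ≤ 2d`, then `Upto (J + 2)` is
  true for the affine schemes over `F_p` given by systems of equations each of which is a sum of at most three
  monomials `x_i y_j`; and if `Upto (J + 2)` is true for these systems, then `H^m` is finitely generated for all `X` and
  `2d - J < m ≤ 2d`.  For instance finite generation of `H^(2d-1)` for all `X` (that is, torsion `CH_0(X, 1)`) follows from
  the comparison maps of the systems in the degrees at most `4`;
* Q1 for the schemes over `F_p` is equivalent to isomorphisms for all comparison maps of these systems.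

The comparison of zero-cycles with weight homology in a bounded range of degrees is closed under closed-open decompositions
(the five lemma, with the surjectivity in the last degree); no homotopy invariance is used.  The theorem on properties
closed under closed-open decompositions and three-term systems is the one of `Pool.Agent.U213.PA.Three` and
`Pool.Agent.Q282.UZ`; the Noetherian induction with alterations is the one of `Pool.Agent.U213`.
-/

set_option autoImplicit false

open CategoryTheory AlgebraicGeometry MvPolynomial Pool.Agent.Y116.UV Pool.Agent.U998.ZC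

universe v

namespace Pool.Agent.Results.MP_b197b4_nt.ThreeTermSystems

section
variable {p : ℕ} [Fact p.Prime] (W : Theory.{v} (ZMod p))

/-- `H^m(X_et, ℤ(d))` is finitely generated for all proper regular connected schemes `X` over `F_p` of dimension
`d ≤ n` and all `m` with `2d - J < m ≤ 2d`. -/
def Range (J : ℤ) (n : ℕ) : Prop :=
  ∀ (X : Sch (ZMod p)) (d : ℕ), PR X d → d ≤ n → ∀ m : ℤ, 2 * d - J < m → m ≤ 2 * d → AddGroup.FG (W.H m X)

/-- Q1 for the proper regular connected schemes over `F_p` of dimension at most `n`. -/
def Question (n : ℕ) : Prop :=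
  ∀ (X : Sch (ZMod p)) (d : ℕ), PR X d → d ≤ n → ∀ m : ℤ, m ≤ 2 * d → AddGroup.FG (W.H m X)

/-- The property `P` is true for the affine schemes over `F_p` given by systems of equations each of which is a
sum of at most three monomials `x_i y_j`. -/
def ForSystems (P : Sch (ZMod p) → Prop) : Prop :=
  ∀ (a b c : ℕ) (E : Fin c → Finset (Fin a × Fin b)), (∀ l, (E l).card ≤ 3) →
    P (aff (ZMod p) (MvPolynomial (Fin a ⊕ Fin b) (ZMod p) ⧸ Ideal.span (Set.range fun l =>
      ∑ e ∈ E l, (X (Sum.inl e.1) * X (Sum.inr e.2) : MvPolynomial (Fin a ⊕ Fin b) (ZMod p)))))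

/-- **Theorem.** Let `p` be a prime number and `W` the theory of zero-cycles over `F_p` (`Theory`: the groups and their known
properties which are used).
1. For `J ≥ 1` and every `n` the following are equivalent: `H^m(X_et, ℤ(d))` is finitely generated for all proper regular
connected `X` over `F_p` of dimension `d ≤ n` and `2d - J < m ≤ 2d`; `CH_0(X, j) ⊗ ℚ = 0` for these `X` and `1 ≤ j < J`;
`Upto J` for all separated schemes of finite type over `F_p` of dimension at most `n`.
2. For every `n` the following are equivalent: Q1 for all `X` over `F_p` of dimension at most `n`; `CH_0(X, j) ⊗ ℚ = 0` for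
these `X` and all `j ≥ 1`; isomorphisms for all comparison maps of the separated schemes of finite type over `F_p` of
dimension at most `n`.
3. For `J ≥ 1`, finite generation in the range `2d - (J + 2) < m ≤ 2d` for all `X` over `F_p` implies `Upto (J + 2)` for the
systems with at most three terms, and this implies finite generation in the range `2d - J < m ≤ 2d` for all `X` over `F_p`.
4. Q1 for all `X` over `F_p` is equivalent to isomorphisms for all comparison maps of these systems. -/
theorem result (p : ℕ) [Fact p.Prime] (W : Theory.{v} (ZMod p)) :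
    (∀ (J : ℤ) (n : ℕ), 1 ≤ J → List.TFAE [
      Range W J n,
      ∀ (X : Sch (ZMod p)) (d : ℕ), PR X d → d ≤ n → ∀ j : ℤ, 1 ≤ j → j < J → Subsingleton (W.C j X).A,
      ∀ X : Sch (ZMod p), FT True X → topologicalKrullDim X.left ≤ n → Upto W J X]) ∧
    (∀ n : ℕ, List.TFAE [
      Question W n,
      ∀ (X : Sch (ZMod p)) (d : ℕ), PR X d → d ≤ n → ∀ j : ℤ, 1 ≤ j → Subsingleton (W.C j X).A,
      ∀ X : Sch (ZMod p), FT True X → topologicalKrullDim X.left ≤ n → All W X]) ∧
    (∀ J : ℤ, 1 ≤ J →
      ((∀ n, Range W (J + 2) n) → ForSystems fun X => Upto W (J + 2) X) ∧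
      ((ForSystems fun X => Upto W (J + 2) X) → ∀ n, Range W J n)) ∧
    ((∀ n, Question W n) ↔ ForSystems fun X => All W X) := by
  have hq : ∀ n, Question W n ↔ ∀ J, Van W J n := by
    intro n
    constructor
    · intro h J
      exact (van_iff_fg W J n).2 fun X d hX hd m _ hm => h X d hX hd m hm
    · intro h X d hX hd m hm
      exact (van_iff_fg W (2 * d - m + 1) n).1 (h _) X d hX hd m (by omega) hm
  refine ⟨fun J n hJ => ?_, fun n => ?_, fun J hJ => ⟨fun h => ?_, fun h n => ?_⟩, ?_⟩
  · tfae_have 1 ↔ 2 := (van_iff_fg W J n).symm
    tfae_have 2 ↔ 3 := van_iff_upto W hJ n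
    tfae_finish
  · tfae_have 1 ↔ 2 := (hq n).trans ⟨fun h X d hX hd j hj => h (j + 1) X d hX hd j hj (by omega),
      fun h J X d hX hd j hj _ => h X d hX hd j hj⟩
    tfae_have 1 ↔ 3 := (hq n).trans (all_dim_iff W n)
    tfae_finish
  · intro a b c E _
    obtain ⟨n, hn⟩ := Pool.Agent.U213.EM.exists_dim_le (R := ZMod p)
      ⟨0, (ringKrullDim_eq_zero_of_field (ZMod p)).le⟩
      (MvPolynomial (Fin a ⊕ Fin b) (ZMod p) ⧸ Ideal.span (Set.range fun l =>
        ∑ e ∈ E l, (X (Sum.inl e.1) * X (Sum.inr e.2) : MvPolynomial (Fin a ⊕ Fin b) (ZMod p))))
    refine (van_iff_upto W (by omega) n).1 ((van_iff_fg W _ n).2 (h n)) _ (ft_aff True) ?_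
    rw [Pool.Agent.U213.EM.topDim]
    exact hn
  · exact (van_iff_fg W J n).1 (upto_three W hJ h n)
  · rw [forall_congr' hq]
    exact all_iff_three W

end

end Pool.Agent.Results.MP_b197b4_nt.ThreeTermSystems
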